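import Pool.Agent.H95.INS.Targets

/-!
# The insertion lemma: modules S5 and S4
-/

set_option autoImplicit false

open MeasureTheory ProbabilityTheory
open scoped ENNReal
open Pool.Agent.H99.NS Pool.Agent.H22.LPP Pool.Agent.H95.INS

namespace Pool.Agent.H34.INS

theorem isPath_restrict {s t s' t' : ℤ} {g : ℤ → ℤ} (h : IsPath s t g) (h1 : s ≤ s')
    (h2 : t' ≤ t) : IsPath s' t' g := fun r hr1 hr2 => h r (by omega) (by omega)

theorem stay_restrict {X s t s' t' : ℤ} {g : ℤ → ℤ} (h : Stay X s t g) (h1 : s ≤ s')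
    (h2 : t' ≤ t) : Stay X s' t' g := fun r hr1 hr2 => h r (by omega) (by omega)

theorem sg_pos' {q : ℝ} (h0 : 0 < q) (h1 : q < 1) : 0 < sg q := by
  unfold sg
  have : 0 < Real.sqrt q := Real.sqrt_pos.2 h0
  have h2 : Real.sqrt q < 1 := by
    rw [Real.sqrt_lt' one_pos]
    simpa using h1
  have h3 : 0 < 1 - q := by linarith
  positivity

theorem H_pos {D : Dat} (hD : D.Ok) : 0 < D.H := by
  have h1 := hD.c1
  have h2 := sg_pos' hD.q0 hD.q1
  have h3 := hD.K0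
  have h4 := hD.B0
  have h5 : 0 ≤ 3 * D.K * (1 + D.B) := by positivity
  have h6 : 0 ≤ sg D.q * D.B ^ 2 := by positivity
  linarith

theorem up5 (h_XY : T_XY) (h_FIV : T_FIV) {D : Dat} {ω ω' : Env} {o e : Site} (hD : D.Ok)
    (hA : Agree D ω ω') (hE : Ends D o e) (h1 : O1 D ω') (h2 : O2 D ω') {γ : ℤ → ℤ}
    (h3 : O3 D ω' o e γ) {g : ℤ → ℤ} (hg : Conn o e g) (hX1 : |g (-(4 * D.n))| ≤ D.X)
    (hX2 : |g (4 * D.n)| ≤ D.X) (hS : Stay (16 * D.A * D.w) (-(4 * D.n)) (4 * D.n) g) :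
    wt ω o.1 e.1 g ≤ T ω' o e +
      (Exc D.q ω (-(4 * D.n)) (-(3 * D.n)) g + Exc D.q ω (-(3 * D.n)) (-(2 * D.n)) g +
      Exc D.q ω (-(2 * D.n)) (2 * D.n) g + Exc D.q ω (2 * D.n) (3 * D.n) g +
      Exc D.q ω (3 * D.n) (4 * D.n) g) + D.H * D.f / 1000 := by
  have hn := hD.n1
  have hw := hD.w1
  have hw' : (0 : ℝ) < D.w := by exact_mod_cast (by omega : 0 < D.w)
  have h4 := (h_XY D ω ω' o e hD hA hE h1 h2 γ h3 g hg hX1 hX2 _ _ rfl rfl).1
  have h5 := h_FIV D ω hD g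
  have ha : |(g (-(4 * D.n)) : ℝ)| / D.w ≤ 16 * D.A := by
    rw [div_le_iff₀ hw']
    have := (hS (-(4 * D.n)) le_rfl (by omega)).le
    exact_mod_cast this
  have hb : |(g (4 * D.n) : ℝ)| / D.w ≤ 16 * D.A := by
    rw [div_le_iff₀ hw']
    have := (hS (4 * D.n) (by omega) le_rfl).le
    exact_mod_cast this
  have hm : D.K * D.f * (1 + max (|(g (-(4 * D.n)) : ℝ)| / D.w) (|(g (4 * D.n) : ℝ)| / D.w)) ≤
      D.H * D.f / 1000 := by
    have h6 : D.K * D.f * (1 + max (|(g (-(4 * D.n)) : ℝ)| / D.w) (|(g (4 * D.n) : ℝ)| / D.w)) ≤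
        D.K * D.f * (1 + 16 * D.A) := by
      apply mul_le_mul_of_nonneg_left _ (mul_nonneg hD.K0 hD.f0.le)
      have := max_le ha hb
      linarith
    have h7 : D.K * D.f * (1 + 16 * D.A) = D.K * (1 + 16 * D.A) * D.f := by ring
    have h8 : D.K * (1 + 16 * D.A) * D.f ≤ D.H / 1000 * D.f :=
      mul_le_mul_of_nonneg_right hD.c2 hD.f0.le
    linarith
  linarith

theorem pf_S5 (h_S3 : T_S3) (h_AVO : T_AVO) (h_INN : T_INN) (h_S1 : T_S1) (h_XY : T_XY)
    (h_FIV : T_FIV) : T_S5 := by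
  intro D ω ω' o e hD hA hE hEv hRR h1 h2 γ h3
  have hn := hD.n1
  have hHf : 0 < D.H * D.f := mul_pos (H_pos hD) hD.f0
  have hlow : T ω' o e + (1993 / 1000) * D.H * D.f ≤ T ω o e := by
    obtain ⟨m, m1, m2, m3, _, m5⟩ := h_INN D ω hD hEv
    obtain ⟨g, g1, _, _, _, g5⟩ := h_S1 D ω ω' o e hD hA hE h1 h2 γ h3 m m1 m2 m3 m5
    exact g5.trans (le_T ω (reach_le hE.re) g1)
  refine ⟨hlow, ?_⟩
  obtain ⟨g, g1, g2, _⟩ := T_attained ω hE.re
  have g3 : T ω' o e < wt ω o.1 e.1 g := by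
    rw [← g2]
    linarith
  have g4 := h_AVO D ω ω' o e hA hE.re g g1 g3
  have g5 : Near ω o e (14 * D.H * D.f / 1000) g := by
    refine ⟨g1, ?_⟩
    rw [← g2]
    linarith
  obtain ⟨hX1, hX2⟩ := hRR g g5 g4
  have hS := h_S3 D ω ω' o e hD hA hE hEv.cu h1 h2 γ h3 g g1 hX1 hX2 g4 g3
  have hup := up5 h_XY h_FIV hD hA hE h1 h2 h3 g1 hX1 hX2 hS
  have hp : IsPath (-(4 * D.n)) (4 * D.n) g :=
    isPath_restrict g1.1 (by have := hE.o1; omega) (by have := hE.e1; omega)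
  have e1 := hEv.sm.s1 g (isPath_restrict hp le_rfl (by omega))
    (stay_restrict hS le_rfl (by omega))
  have e2 := hEv.u1 g (isPath_restrict hp (by omega) (by omega))
    (stay_restrict hS (by omega) (by omega))
  have e3 := hEv.sm.s2 g (isPath_restrict hp (by omega) (by omega))
    (stay_restrict hS (by omega) (by omega))
  have e4 := hEv.u2 g (isPath_restrict hp (by omega) (by omega))
    (stay_restrict hS (by omega) (by omega))
  have e5 := hEv.sm.s3 g (isPath_restrict hp (by omega) le_rfl)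
    (stay_restrict hS (by omega) le_rfl)
  rw [g2]
  linarith

theorem pf_S4 (h_S3 : T_S3) (h_AVO : T_AVO) (h_S5 : T_S5) (h_XY : T_XY) (h_FIV : T_FIV) :
    T_S4 := by
  intro D ω ω' o e hD hA hE hEv hRR h1 h2 γ h3 g hg
  have hn := hD.n1
  have hHf : 0 < D.H * D.f := mul_pos (H_pos hD) hD.f0
  have hlow := (h_S5 D ω ω' o e hD hA hE hEv hRR h1 h2 γ h3).1
  obtain ⟨g1, g2⟩ := hg
  have g3 : T ω' o e < wt ω o.1 e.1 g := by linarith
  have g4 := h_AVO D ω ω' o e hA hE.re g g1 g3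
  obtain ⟨hX1, hX2⟩ := hRR g ⟨g1, g2⟩ g4
  have hS := h_S3 D ω ω' o e hD hA hE hEv.cu h1 h2 γ h3 g g1 hX1 hX2 g4 g3
  have hup := up5 h_XY h_FIV hD hA hE h1 h2 h3 g1 hX1 hX2 hS
  have hp : IsPath (-(4 * D.n)) (4 * D.n) g :=
    isPath_restrict g1.1 (by have := hE.o1; omega) (by have := hE.e1; omega)
  have e1 := hEv.sm.s1 g (isPath_restrict hp le_rfl (by omega))
    (stay_restrict hS le_rfl (by omega))
  have e2 := hEv.u1 g (isPath_restrict hp (by omega) (by omega))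
    (stay_restrict hS (by omega) (by omega))
  have e3 := hEv.sm.s2 g (isPath_restrict hp (by omega) (by omega))
    (stay_restrict hS (by omega) (by omega))
  have e4 := hEv.u2 g (isPath_restrict hp (by omega) (by omega))
    (stay_restrict hS (by omega) (by omega))
  have e5 := hEv.sm.s3 g (isPath_restrict hp (by omega) le_rfl)
    (stay_restrict hS (by omega) le_rfl)
  refine ⟨hS, ?_, ?_⟩
  · linarith
  · linarith

end Pool.Agent.H34.INS
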