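import Pool.Agent.H95.INS.Targets
import Pool.Agent.H22.LPP.Par

/-!
# The insertion lemma: modules PSA, FIV, AVO, GEO, NU3
-/

set_option autoImplicit false

open MeasureTheory ProbabilityTheory
open scoped ENNReal
open Pool.Agent.H99.NS Pool.Agent.H22.LPP Pool.Agent.H95.INS

namespace Pool.Agent.H34.INS

theorem pf_PSA : T_PSA := fun _ _ _ _ _ _ _ _ h1 h2 h3 => par_superadd h1 h2 h3

theorem pf_FIV (h_PSA : T_PSA) : T_FIV := by
  intro D ω hD g
  have hn := hD.n1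
  have e1 := wt_add ω (s := -(4 * D.n)) (m := -(3 * D.n)) (t := 4 * D.n) (by omega) (by omega) g
  have e2 := wt_add ω (s := -(3 * D.n)) (m := -(2 * D.n)) (t := 4 * D.n) (by omega) (by omega) g
  have e3 := wt_add ω (s := -(2 * D.n)) (m := 2 * D.n) (t := 4 * D.n) (by omega) (by omega) g
  have e4 := wt_add ω (s := 2 * D.n) (m := 3 * D.n) (t := 4 * D.n) (by omega) (by omega) g
  have p1 := h_PSA D.q (-(4 * D.n)) (-(3 * D.n)) (4 * D.n) (g (-(4 * D.n))) (g (-(3 * D.n)))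
    (g (4 * D.n)) hD.q0 hD.q1 (by omega) (by omega)
  have p2 := h_PSA D.q (-(3 * D.n)) (-(2 * D.n)) (4 * D.n) (g (-(3 * D.n))) (g (-(2 * D.n)))
    (g (4 * D.n)) hD.q0 hD.q1 (by omega) (by omega)
  have p3 := h_PSA D.q (-(2 * D.n)) (2 * D.n) (4 * D.n) (g (-(2 * D.n))) (g (2 * D.n))
    (g (4 * D.n)) hD.q0 hD.q1 (by omega) (by omega)
  have p4 := h_PSA D.q (2 * D.n) (3 * D.n) (4 * D.n) (g (2 * D.n)) (g (3 * D.n))
    (g (4 * D.n)) hD.q0 hD.q1 (by omega) (by omega)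
  unfold Exc
  linarith

theorem pf_AVO : T_AVO := by
  intro D ω ω' o e hA hr g hg hlt
  by_contra hno
  push Not at hno
  have h1 : wt ω o.1 e.1 g = wt ω' o.1 e.1 g := by
    apply wt_congr
    intro r _ _
    apply hA
    rintro ⟨h2, h3, h4⟩
    have := hno r h2.le h3
    simp only at h4
    omega
  rw [h1] at hlt
  exact absurd (le_T ω' (reach_le hr) hg) (not_le.2 hlt)

/-- Replace a path between `s` and `t`. -/
def glue (s t : ℤ) (g g' : ℤ → ℤ) : ℤ → ℤ := fun r => if s ≤ r ∧ r ≤ t then g' r else g r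

theorem glue_conn {u v : Site} {g g' : ℤ → ℤ} {s t : ℤ} (hg : Conn u v g) (h1 : u.1 ≤ s)
    (h2 : s ≤ t) (h3 : t ≤ v.1) (hg' : Conn (s, g s) (t, g t) g') :
    Conn u v (glue s t g g') := by
  obtain ⟨p1, p2, p3⟩ := hg
  obtain ⟨q1, q2, q3⟩ := hg'
  simp only at q2 q3
  refine ⟨?_, ?_, ?_⟩
  · intro r hr1 hr2
    have a1 := p1 r hr1 hr2
    simp only [glue]
    by_cases c1 : s ≤ r ∧ r ≤ t
    · by_cases c2 : s ≤ r + 1 ∧ r + 1 ≤ t
      · rw [if_pos c1, if_pos c2]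
        exact q1 r c1.1 (by simp only; omega)
      · rw [if_pos c1, if_neg c2]
        have : r = t := by omega
        subst this
        rw [q3]
        exact a1
    · by_cases c2 : s ≤ r + 1 ∧ r + 1 ≤ t
      · rw [if_neg c1, if_pos c2]
        have : r + 1 = s := by omega
        rw [this, q2, ← this]
        exact a1
      · rw [if_neg c1, if_neg c2]
        exact a1
  · simp only [glue]
    by_cases c1 : s ≤ u.1 ∧ u.1 ≤ t
    · rw [if_pos c1]
      have : u.1 = s := by omega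
      rw [this, q2, ← this, p2]
    · rw [if_neg c1, p2]
  · simp only [glue]
    by_cases c1 : s ≤ v.1 ∧ v.1 ≤ t
    · rw [if_pos c1]
      have : v.1 = t := by omega
      rw [this, q3, ← this, p3]
    · rw [if_neg c1, p3]

theorem wt_glue (ω : Env) {u v : Site} {g g' : ℤ → ℤ} {s t : ℤ} (h1 : u.1 ≤ s)
    (h2 : s ≤ t) (h3 : t ≤ v.1) (hs : g' s = g s) (_ : g' t = g t) :
    wt ω u.1 v.1 (glue s t g g') - wt ω u.1 v.1 g = wt ω s t g' - wt ω s t g := by
  rw [wt_add ω h1 (h2.trans h3) g, wt_add ω h2 h3 g, wt_add ω h1 (h2.trans h3) (glue s t g g'),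
    wt_add ω h2 h3 (glue s t g g')]
  have e1 : wt ω u.1 s (glue s t g g') = wt ω u.1 s g := by
    apply wt_congr
    intro r hr1 hr2
    simp only [glue]
    by_cases c1 : s ≤ r ∧ r ≤ t
    · have : r = s := by omega
      rw [if_pos c1, this, hs]
    · rw [if_neg c1]
  have e2 : wt ω s t (glue s t g g') = wt ω s t g' := by
    apply wt_congr
    intro r hr1 hr2
    simp only [glue]
    rw [if_pos ⟨by omega, hr2⟩]
  have e3 : wt ω t v.1 (glue s t g g') = wt ω t v.1 g := by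
    apply wt_congr
    intro r hr1 hr2
    simp only [glue]
    rw [if_neg (by omega)]
  rw [e1, e2, e3]
  ring

theorem geo_restrict {ω : Env} {u v : Site} {g : ℤ → ℤ} {s t : ℤ} (h1 : u.1 ≤ s) (h2 : s ≤ t)
    (h3 : t ≤ v.1) (hg : Geo ω u v g) : Geo ω (s, g s) (t, g t) g := by
  obtain ⟨c1, c2⟩ := hg
  have c3 : Conn (s, g s) (t, g t) g := c1.restrict h1 h3
  refine ⟨c3, le_antisymm (le_T ω h2 c3) ?_⟩
  obtain ⟨g', d1, d2, _⟩ := T_attained ω (c3.reach h2)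
  have d3 := wt_glue ω (g := g) (g' := g') h1 h2 h3 d1.2.1 d1.2.2
  have d4 := le_T ω (h1.trans (h2.trans h3)) (glue_conn c1 h1 h2 h3 d1)
  rw [d2]
  simp only at d3 ⊢
  linarith

theorem pf_GEO : T_GEO := by
  intro ω u v g s t h1 h2 h3
  refine ⟨geo_restrict h1 h2 h3, ?_⟩
  rintro ⟨hg, hmin⟩
  refine ⟨geo_restrict h1 h2 h3 hg, ?_⟩
  intro g' hg' r hr1 hr2
  have hr := (geo_restrict h1 h2 h3 hg).2
  have d3 := wt_glue ω (g := g) (g' := g') h1 h2 h3 hg'.1.2.1 hg'.1.2.2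
  have d5 := hg'.2
  simp only at hr d5
  have d6 : Geo ω u v (glue s t g g') := by
    refine ⟨glue_conn hg.1 h1 h2 h3 hg'.1, ?_⟩
    have := hg.2
    linarith
  have d7 := hmin _ d6 r (h1.trans hr1) (le_trans hr2 h3)
  simp only [glue] at d7
  rwa [if_pos ⟨hr1, hr2⟩] at d7

theorem pf_NU3 : T_NU3 := by
  intro s A K B H Y x y hs hA hK hB hBA h1 h2 h3 hx hy
  have hA0 : 0 < A := by linarith
  have q1 : (x + A + B) ^ 2 ≤ 2 * x ^ 2 + 8 * A ^ 2 := by nlinarith [sq_nonneg (x - 2 * A)]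
  have q2 : (y + A + B) ^ 2 ≤ 2 * y ^ 2 + 8 * A ^ 2 := by nlinarith [sq_nonneg (y - 2 * A)]
  have q3 : s / 2 * ((x + A + B) ^ 2 + (y + A + B) ^ 2) / (65 / 2) ≤
      s * (2 * x ^ 2 + 2 * y ^ 2 + 16 * A ^ 2) / 65 := by
    have : s * ((x + A + B) ^ 2 + (y + A + B) ^ 2) ≤ s * (2 * x ^ 2 + 2 * y ^ 2 + 16 * A ^ 2) :=
      mul_le_mul_of_nonneg_left (by linarith) hs.le
    have e : s / 2 * ((x + A + B) ^ 2 + (y + A + B) ^ 2) / (65 / 2) =
        s * ((x + A + B) ^ 2 + (y + A + B) ^ 2) / 65 := by ring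
    rw [e]
    linarith
  have k1 : K * (1 + 16 * A) ≤ s * A ^ 2 / 4000 := by linarith
  have k2 : 16 * K * A ≤ s * A ^ 2 / 4000 := by nlinarith
  have k3 : K ≤ s * A / 64000 := by
    have : K * A ≤ s * A / 64000 * A := by nlinarith
    exact le_of_mul_le_mul_right this hA0
  have k4 : K * (1 + B + 18 * A) ≤ K * (19 / 16 * (1 + 16 * A)) :=
    mul_le_mul_of_nonneg_left (by linarith) hK
  have k5 : K * x ≤ s * A / 64000 * x := mul_le_mul_of_nonneg_right k3 hx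
  have k6 : K * y ≤ s * A / 64000 * y := mul_le_mul_of_nonneg_right k3 hy
  have k7 : s * A * x ≤ s * (A ^ 2 + x ^ 2) / 2 := by nlinarith [mul_nonneg hs.le (sq_nonneg (A - x))]
  have k8 : s * A * y ≤ s * (A ^ 2 + y ^ 2) / 2 := by nlinarith [mul_nonneg hs.le (sq_nonneg (A - y))]
  have hsA : 0 < s * A ^ 2 := by positivity
  have hsx : 0 ≤ s * x ^ 2 := by positivity
  have hsy : 0 ≤ s * y ^ 2 := by positivity
  have t1 : 7 * K * (1 + B + 18 * A + x + y) =
      7 * (K * (1 + B + 18 * A)) + 7 * (K * x) + 7 * (K * y) := by ring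
  have t2 : s / 2 / (51 / 50) * ((x ^ 2 + y ^ 2 + (15 * A) ^ 2) / 2) =
      25 / 102 * (s * x ^ 2) + 25 / 102 * (s * y ^ 2) + 25 * 225 / 102 * (s * A ^ 2) := by ring
  rw [t1, t2]
  have t3 : s * (2 * x ^ 2 + 2 * y ^ 2 + 16 * A ^ 2) / 65 =
      2 / 65 * (s * x ^ 2) + 2 / 65 * (s * y ^ 2) + 16 / 65 * (s * A ^ 2) := by ring
  rw [t3] at q3
  have k7' : s * A * x ≤ (s * A ^ 2 + s * x ^ 2) / 2 := by linarith
  have k8' : s * A * y ≤ (s * A ^ 2 + s * y ^ 2) / 2 := by linarith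
  have k4' : K * (1 + B + 18 * A) ≤ 19 / 16 * (s * A ^ 2 / 4000) := by
    have : K * (19 / 16 * (1 + 16 * A)) = 19 / 16 * (K * (1 + 16 * A)) := by ring
    linarith
  have k5' : K * x ≤ s * A * x / 64000 := by linarith
  have k6' : K * y ≤ s * A * y / 64000 := by linarith
  linarith

end Pool.Agent.H34.INS
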